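import Pool.Agent.Run7.h25.GS.Red

/-!
# Asymptotic planes with a simple spectrum
-/

set_option autoImplicit false
set_option linter.unusedSectionVars false

namespace Pool.Agent.Run7.H25.GS

open Finset Pool.Agent.Y489.SM Pool.Agent.W666.GB Pool.Agent.W669.HD

variable {V W : Type} [NormedAddCommGroup V] [InnerProductSpace ℝ V]
  [NormedAddCommGroup W] [InnerProductSpace ℝ W]

theorem third : ∀ i j : Fin 3, i ≠ j → ∃ k : Fin 3, k ≠ i ∧ k ≠ j ∧ ∀ l, l = i ∨ l = j ∨ l = k := by
  decide

theorem inj_pair : ∀ j k : Fin 3, j ≠ k → Function.Injective ![j, k] := by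
  decide

/-- the algebra of the three mixed components -/
theorem three_zero {mi mj mk X Y Z : ℝ} (hik : mi ≠ mk) (hjk : mj ≠ mk)
    (e1 : (mj - mi) * Y = (mk - mi) * Z) (e2 : (mi - mj) * X = (mk - mj) * Z)
    (e3 : (mi - mk) * X = (mj - mk) * Y) : Z = 0 := by
  have h1 : (mk - mj) * (mi - mk) * Z = 0 := by
    linear_combination (-(mj - mk) / 2) * e1 - (mi - mk) / 2 * e2 + (mi - mj) / 2 * e3
  have h2 : mk - mj ≠ 0 := sub_ne_zero.2 hjk.symm
  have h3 : mi - mk ≠ 0 := sub_ne_zero.2 hik
  have h4 : (mk - mj) * (mi - mk) ≠ 0 := mul_ne_zero h2 h3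
  exact (mul_eq_zero.1 h1).resolve_left h4

set_option maxHeartbeats 4000000 in
theorem diag [FiniteDimensional ℝ W] {β : V →ₗ[ℝ] V →ₗ[ℝ] W} (hs : ∀ x y, β x y = β y x)
    (hK : ∀ x y, gauss β x y x y ≤ 0) (hW : Module.finrank ℝ W = 3) {y₀ y₁ : V}
    (h00 : β y₀ y₀ = 0) (h01 : β y₀ y₁ = 0) (h11 : β y₁ y₁ = 0)
    (hsur : Function.Surjective (β y₀))
    (hker : ∀ t, β y₀ t = 0 → ∃ α γ : ℝ, ∀ v, β t v = α • β y₀ v + γ • β y₁ v)
    (hrk : ∀ (y : V) (p : W), β y y = 0 → (∀ v, ∃ c : ℝ, β y v = c • p) → β y = 0)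
    (hind : ∀ c : ℝ, β (y₁ - c • y₀) ≠ 0) : OpNonneg (negT (gauss β)) := by
  have hK' : ∀ x y, inner ℝ (β x x) (β y y) - ‖β x y‖ ^ 2 ≤ 0 := fun x y => by
    rw [← gauss_sec hs]
    exact hK x y
  have h10 : β y₁ y₀ = 0 := by rw [hs, h01]
  obtain ⟨C, hC, hCv⟩ := exists_opM hs hK' h00 h11 h01 hsur
  set b := hC.eigenvectorBasis hW with hb
  set m : Fin 3 → ℝ := hC.eigenvalues hW with hm
  have hCb : ∀ i, C (b i) = m i • b i := fun i => hC.apply_eigenvectorBasis hW i
  have hbb : ∀ i j, inner ℝ (b i) (b j) = if i = j then (1 : ℝ) else 0 :=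
    orthonormal_iff_ite.1 b.orthonormal
  have hCin : ∀ k q, inner ℝ (b k) (C q) = m k * inner ℝ (b k) q := by
    intro k q
    rw [← hC, hCb, inner_smul_left]
    rfl
  -- the vectors `z i`
  set z : Fin 3 → V := fun i => y₁ - m i • y₀ with hz
  have hzv : ∀ i v, β (z i) v = C (β y₀ v) - m i • β y₀ v := by
    intro i v
    rw [hCv, hz]
    simp
  have hzz : ∀ i, β (z i) (z i) = 0 := by
    intro i
    simp only [hz, map_sub, map_smul, LinearMap.sub_apply, LinearMap.smul_apply, h00, h01, h10, h11]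
    simp
  have hz0 : ∀ i, β (z i) y₀ = 0 := by
    intro i
    rw [hzv, h00]
    simp
  have hzin : ∀ i k v, inner ℝ (b k) (β (z i) v) = (m k - m i) * inner ℝ (b k) (β y₀ v) := by
    intro i k v
    rw [hzv, inner_sub_right, hCin, inner_smul_right]
    ring
  -- simple spectrum
  have hdist : ∀ i j, i ≠ j → m i ≠ m j := by
    intro i j hij he
    obtain ⟨k, -, -, hk⟩ := third i j hij
    refine hind (m i) (hrk (z i) (b k) (hzz i) fun v => ⟨inner ℝ (b k) (β (z i) v), ?_⟩)
    rw [← b.sum_repr' (β (z i) v)]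
    rw [Finset.sum_eq_single k]
    · rw [inner_smul_right, hbb k k, if_pos rfl, mul_one]
    · intro l _ hlk
      have h1 : m l = m i := by
        rcases hk l with h | h | h
        · rw [h]
        · rw [h, he]
        · exact absurd h hlk
      rw [hzin, h1, sub_self, zero_mul, zero_smul]
    · intro h
      exact absurd (Finset.mem_univ k) h
  -- the vectors `v i`
  have hex : ∀ i, ∃ v, β y₀ v = b i := fun i => hsur (b i)
  choose v hv using hex
  set u : Fin 3 → (V →ₗ[ℝ] ℝ) := fun k => (innerₛₗ ℝ (b k)) ∘ₗ (β y₀) with hu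
  have hu' : ∀ k x, u k x = inner ℝ (b k) (β y₀ x) := fun k x => rfl
  have huv : ∀ k i, u k (v i) = if k = i then 1 else 0 := fun k i => by rw [hu', hv, hbb]
  set h : Fin 3 → (V →ₗ[ℝ] V →ₗ[ℝ] ℝ) := fun k => bil β (b k) with hh
  have hh' : ∀ k x y, h k x y = inner ℝ (b k) (β x y) := fun k x y => rfl
  have hhs : ∀ k x y, h k x y = h k y x := fun k x y => by rw [hh', hh', hs]
  have hzvj : ∀ i j, β (z i) (v j) = (m j - m i) • b j := by
    intro i j
    rw [hzv, hv, hCb, sub_smul]
  have hkt : ∀ k t x, β y₀ t = 0 → u k x = 0 → h k t x = 0 := by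
    intro k t x ht hx
    obtain ⟨α, γ, hα⟩ := hker t ht
    rw [hh', hα, ← hCv, inner_add_right, inner_smul_right, inner_smul_right, hCin, ← hu', hx]
    ring
  have hE1 : ∀ i k, i ≠ k → h k (v i) (v i) = 0 := by
    intro i k hik
    have h1 : β (z i) (v i) = 0 := by rw [hzvj, sub_self, zero_smul]
    have h2 := asym_perp' hs hK' (hzz i) h1 h1 (v k)
    rw [hzvj, inner_smul_left] at h2
    rcases mul_eq_zero.1 h2 with h3 | h3
    · exact absurd (sub_eq_zero.1 (by simpa using h3)) (hdist k i hik.symm)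
    · exact h3
  have hE2 : ∀ i j k, i ≠ j → i ≠ k → j ≠ k →
      (m j - m i) * h j (v i) (v k) = (m k - m i) * h k (v i) (v j) := by
    intro i j k hij hik hjk
    set c : ℝ := h i (v i) (v i) with hc
    have hvv : β (v i) (v i) = c • b i := by
      rw [← b.sum_repr' (β (v i) (v i)), Finset.sum_eq_single i]
      · rfl
      · intro l _ hl
        have := hE1 i l hl.symm
        rw [hh'] at this
        rw [this, zero_smul]
      · intro h
        exact absurd (Finset.mem_univ i) h
    set v' : V := v i - (c / 2) • y₀ with hv'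
    have hvy : β (v i) y₀ = b i := by rw [hs, hv]
    have h1 : β v' v' = 0 := by
      rw [hv']
      simp only [map_sub, map_smul, LinearMap.sub_apply, LinearMap.smul_apply, h00, hvv, hvy, hv]
      module
    have h2 : β (z i) v' = 0 := by
      rw [hv', map_sub, map_smul, hz0, hzvj]
      simp
    have h2' : β v' (z i) = 0 := by rw [hs, h2]
    have h3 : β v' y₀ = b i := by
      rw [hv', map_sub, map_smul, LinearMap.sub_apply, LinearMap.smul_apply, h00, hvy]
      simp
    have hn : β v' y₀ ∉ LinearMap.range (β (z i)) := by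
      rw [h3]
      rintro ⟨q, hq⟩
      have h4 := hzin i i q
      rw [hq, hbb, if_pos rfl, sub_self, zero_mul] at h4
      exact one_ne_zero h4
    have hr : Module.finrank ℝ W ≤ Module.finrank ℝ (LinearMap.range (β (z i))) + 1 := by
      rw [hW]
      have hj : b j ∈ LinearMap.range (β (z i)) := by
        refine ⟨(m j - m i)⁻¹ • v j, ?_⟩
        rw [map_smul, hzvj, smul_smul, inv_mul_cancel₀ (sub_ne_zero.2 (hdist j i hij.symm)),
          one_smul]
      have hk : b k ∈ LinearMap.range (β (z i)) := by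
        refine ⟨(m k - m i)⁻¹ • v k, ?_⟩
        rw [map_smul, hzvj, smul_smul, inv_mul_cancel₀ (sub_ne_zero.2 (hdist k i hik.symm)),
          one_smul]
      have hli : LinearIndependent ℝ ![(⟨b j, hj⟩ : LinearMap.range (β (z i))), ⟨b k, hk⟩] := by
        apply LinearIndependent.of_comp (LinearMap.range (β (z i))).subtype
        have h5 : (LinearMap.range (β (z i))).subtype ∘
            ![(⟨b j, hj⟩ : LinearMap.range (β (z i))), ⟨b k, hk⟩] = b ∘ ![j, k] := by
          funext l
          fin_cases l <;> rfl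
        rw [h5]
        exact b.orthonormal.linearIndependent.comp _ (inj_pair j k hjk)
      have := hli.fintype_card_le_finrank
      simp at this
      omega
    obtain ⟨ε, hε, hsur'⟩ := exists_surj (hz0 i) hn hr
    have h6 : β (z i + ε • v') (z i + ε • v') = 0 := by
      simp only [map_add, map_smul, LinearMap.add_apply, LinearMap.smul_apply, hzz, h1, h2, h2']
      simp
    have h7 : β (z i + ε • v') (z i) = 0 := by
      simp only [map_add, map_smul, LinearMap.add_apply, LinearMap.smul_apply, hzz, h2']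
      simp
    have h8 := symM hs hK' h6 (hzz i) h7 hsur' (v j) (v k)
    simp only [map_add, map_smul, LinearMap.add_apply, LinearMap.smul_apply, inner_add_left,
      inner_add_right, inner_smul_left, inner_smul_right, conj_trivial] at h8
    have h9 : inner ℝ (β (z i) (v j)) (β v' (v k)) = (inner ℝ (β v' (v j)) (β (z i) (v k)) : ℝ) := by
      have := mul_left_cancel₀ hε (by linarith : ε * inner ℝ (β (z i) (v j)) (β v' (v k)) =
        ε * inner ℝ (β v' (v j)) (β (z i) (v k)))
      exact this
    have h10' : β v' (v k) = β (v i) (v k) - (c / 2) • b k := by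
      rw [hv', map_sub, map_smul, LinearMap.sub_apply, LinearMap.smul_apply, hv]
    have h11' : β v' (v j) = β (v i) (v j) - (c / 2) • b j := by
      rw [hv', map_sub, map_smul, LinearMap.sub_apply, LinearMap.smul_apply, hv]
    rw [hzvj, hzvj, h10', h11', inner_smul_left, inner_smul_right, inner_sub_right, inner_sub_left,
      inner_smul_left, inner_smul_right, hbb, if_neg hjk,
      real_inner_comm (b k) (β (v i) (v j))] at h9
    simp only [conj_trivial, mul_zero, sub_zero] at h9
    exact h9
  have hE3 : ∀ i j k, i ≠ j → i ≠ k → j ≠ k → h k (v i) (v j) = 0 := by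
    intro i j k hij hik hjk
    have e1 := hE2 i j k hij hik hjk
    have e2 := hE2 j i k hij.symm hjk hik
    have e3 := hE2 k i j hik.symm hjk.symm hij
    rw [hhs i (v k) (v j), hhs j (v k) (v i)] at e3
    rw [hhs k (v j) (v i)] at e2
    exact three_zero (hdist i k hik) (hdist j k hjk) e1 e2 e3
  have hE : ∀ i j k, i ≠ k → j ≠ k → h k (v i) (v j) = 0 := by
    intro i j k hik hjk
    by_cases hij : i = j
    · rw [← hij]
      exact hE1 i k hik
    · exact hE3 i j k hij hik hjk
  -- decomposition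
  have hdec : ∀ x, β y₀ (x - ∑ i, u i x • v i) = 0 := by
    intro x
    rw [map_sub, map_sum, sub_eq_zero]
    simp only [map_smul, hv, hu']
    exact (b.sum_repr' (β y₀ x)).symm
  have hsplit : ∀ k x y, u k x = 0 → u k y = 0 → h k x y = 0 := by
    intro k x y hx hy
    have h1 : h k x y = ∑ i, u i x * h k (v i) y := by
      have h2 := hkt k _ y (hdec x) hy
      rw [map_sub, LinearMap.sub_apply, sub_eq_zero, map_sum, LinearMap.sum_apply] at h2
      rw [h2]
      simp
    rw [h1]
    refine Finset.sum_eq_zero fun i _ => ?_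
    by_cases hik : i = k
    · rw [hik, hx, zero_mul]
    have h2 : h k (v i) y = ∑ j, u j y * h k (v i) (v j) := by
      have h3 := hkt k _ (v i) (hdec y) (by rw [huv, if_neg fun h => hik h.symm])
      rw [hhs, map_sub, sub_eq_zero, map_sum] at h3
      rw [h3]
      simp
    rw [h2, Finset.mul_sum]
    refine Finset.sum_eq_zero fun j _ => ?_
    by_cases hjk : j = k
    · rw [hjk, hy]
      ring
    · rw [hE i j k hik hjk]
      ring
  have ha : ∀ k, ∃ a : V →ₗ[ℝ] ℝ, ∀ x y, h k x y = u k x * a y + a x * u k y := fun k =>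
    split_form (h k) (hhs k) (u k) (v k) (by rw [huv, if_pos rfl]) (hsplit k)
  choose a ha using ha
  refine negOp_congr (negOp_sum fun k => negOp_sqT (u k) (a k)) fun x y z w => ?_
  rw [gauss, ← b.sum_inner_mul_inner, ← b.sum_inner_mul_inner, ← Finset.sum_sub_distrib]
  refine Finset.sum_congr rfl fun k _ => ?_
  rw [real_inner_comm (b k) (β x z), real_inner_comm (b k) (β x w), ← hh', ← hh', ← hh', ← hh',
    ha, ha, ha, ha]
  simp only [sqT]
  ring

end Pool.Agent.Run7.H25.GS
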