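import Pool.Agent.Run7.h25.GS.Main
import Pool.Agent.Y489.SM.Gc

/-!
# The sign of the integrand for submanifolds whose normal spaces split into small summands
-/

set_option autoImplicit false
set_option linter.unusedSectionVars false

namespace Pool.Agent.Run7.H25.GS

open Finset Pool.Agent.Y489.SM Pool.Agent.W666.GB Pool.Agent.W669.HD

variable {m : ℕ} {V W : Type} [NormedAddCommGroup V] [InnerProductSpace ℝ V]
  [NormedAddCommGroup W] [InnerProductSpace ℝ W] [FiniteDimensional ℝ W]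

theorem curv_add {R R' : V → V → V → V → ℝ} (h : AlgCurv R) (h' : AlgCurv R') :
    AlgCurv (addT R R') where
  add x x' y z w := by
    simp only [addT, h.add, h'.add]
    ring
  smul t x y z w := by
    simp only [addT, h.smul, h'.smul]
    ring
  anti x y z w := by
    simp only [addT]
    rw [h.anti, h'.anti]
    ring
  pair x y z w := by
    simp only [addT]
    rw [h.pair, h'.pair]
  bianchi x y z w := by
    have h1 := h.bianchi x y z w
    have h2 := h'.bianchi x y z w
    simp only [addT]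
    linarith

theorem curv_sum {k : ℕ} {R : Fin k → V → V → V → V → ℝ} (h : ∀ i, AlgCurv (R i)) :
    AlgCurv fun x y z w => ∑ i, R i x y z w where
  add x x' y z w := by
    rw [← Finset.sum_add_distrib]
    exact Finset.sum_congr rfl fun i _ => (h i).add _ _ _ _ _
  smul t x y z w := by
    rw [Finset.mul_sum]
    exact Finset.sum_congr rfl fun i _ => (h i).smul _ _ _ _ _
  anti x y z w := by
    rw [← Finset.sum_neg_distrib]
    exact Finset.sum_congr rfl fun i _ => (h i).anti _ _ _ _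
  pair x y z w := Finset.sum_congr rfl fun i _ => (h i).pair _ _ _ _
  bianchi x y z w := by
    rw [← Finset.sum_add_distrib, ← Finset.sum_add_distrib]
    exact Finset.sum_eq_zero fun i _ => (h i).bianchi _ _ _ _

/-- a piece living on a subspace of dimension at most four and a nonpositive operator -/
theorem exists_piece [FiniteDimensional ℝ V] {β : V →ₗ[ℝ] V →ₗ[ℝ] W}
    (hs : ∀ x y, β x y = β y x) (hK : ∀ x y, gauss β x y x y ≤ 0)
    (hd : Module.finrank ℝ W ≤ 3) :
    ∃ (S Q : V → V → V → V → ℝ) (U : Submodule ℝ V), AlgCurv S ∧ LivesOn U S ∧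
      Module.finrank ℝ U ≤ 4 ∧ (∀ x y, S x y x y ≤ 0) ∧ AlgCurv Q ∧ OpNonneg (negT Q) ∧
      ∀ x y z w, gauss β x y z w = S x y z w + Q x y z w := by
  rcases main_three hs hK hd with h | h
  · exact ⟨fun _ _ _ _ => 0, gauss β, ⊥, zero_curv, fun _ _ _ _ _ => rfl, by simp,
      fun _ _ => le_rfl, gauss_curv hs, h, fun x y z w => by simp⟩
  · exact ⟨gauss β, fun _ _ _ _ => 0, (LinearMap.ker β)ᗮ, gauss_curv hs, gauss_lives, h, hK,
      zero_curv, negOp_zero, fun x y z w => by simp⟩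

/-- **The sign of the integrand.** -/
theorem split_bound {W' : Type} [NormedAddCommGroup W'] [InnerProductSpace ℝ W']
    [FiniteDimensional ℝ W'] {X : Type} [NormedAddCommGroup X] [InnerProductSpace ℝ X]
    [FiniteDimensional ℝ X] (e : OrthonormalBasis (Fin m × Bool) ℝ V)
    (β : V →ₗ[ℝ] V →ₗ[ℝ] W) (β' : V →ₗ[ℝ] V →ₗ[ℝ] W') {k : ℕ} (γ : Fin k → V →ₗ[ℝ] V →ₗ[ℝ] X)
    (hd : Module.finrank ℝ W ≤ 3) (hd' : Module.finrank ℝ W' ≤ 3)
    (hX : Module.finrank ℝ X ≤ 2)
    (hs : ∀ x y, β x y = β y x) (hs' : ∀ x y, β' x y = β' y x)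
    (hsγ : ∀ i x y, γ i x y = γ i y x)
    (hK : ∀ x y, gauss β x y x y ≤ 0) (hK' : ∀ x y, gauss β' x y x y ≤ 0)
    (hKγ : ∀ i x y, gauss (γ i) x y x y ≤ 0)
    {R R₀ : V → V → V → V → ℝ} {δ : ℝ} (hδ : 0 ≤ δ) (hR₀ : AlgCurv R₀)
    (hop : OpNonneg (negT (addT R₀ fun x y z w => δ * unitT x y z w)))
    (hR : ∀ x y z w, R x y z w = gauss β x y z w + gauss β' x y z w +
      ∑ i, gauss (γ i) x y z w + R₀ x y z w) :
    roundGB m δ ≤ (-1) ^ m * gbc e R := by
  have hfin : FiniteDimensional ℝ V := e.toBasis.finiteDimensional_of_finite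
  obtain ⟨S, Q, U, h1, h2, h3, h4, h5, h6, h7⟩ := exists_piece hs hK hd
  obtain ⟨S', Q', U', h1', h2', h3', h4', h5', h6', h7'⟩ := exists_piece hs' hK' hd'
  set P : V → V → V → V → ℝ := fun x y z w => ∑ i, gauss (γ i) x y z w with hP
  have hPc : AlgCurv P := curv_sum fun i => gauss_curv (hsγ i)
  have hPn : OpNonneg (negT P) := negOp_sum fun i => neg_two (hsγ i) (hKγ i) hX
  refine five_two e hδ ⟨![S, S'], ![U, U'], addT (addT (addT Q Q') P) R₀, ?_,
    curv_add (curv_add (curv_add h5 h5') hPc) hR₀, ?_, ?_⟩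
  · intro i
    fin_cases i
    · exact ⟨h1, h2, Or.inl ⟨h3, h4⟩⟩
    · exact ⟨h1', h2', Or.inl ⟨h3', h4'⟩⟩
  · have h8 := negOp_add (negOp_add (negOp_add h6 h6') hPn) hop
    refine negOp_congr h8 fun x y z w => ?_
    simp only [addT]
    ring
  · intro x y z w
    rw [hR, Fin.sum_univ_two, h7, h7']
    simp only [addT, hP, Matrix.cons_val_zero, Matrix.cons_val_one]
    ring

end Pool.Agent.Run7.H25.GS
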