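import Pool.Agent.Run7.h25.GS.Diag
import Pool.Agent.Y489.SM.Fb

/-!
# The Gauss tensor in codimension at most three
-/

set_option autoImplicit false
set_option linter.unusedSectionVars false
set_option maxHeartbeats 4000000

namespace Pool.Agent.Run7.H25.GS

open Finset Pool.Agent.Y489.SM Pool.Agent.W666.GB Pool.Agent.W669.HD

variable {V W : Type} [NormedAddCommGroup V] [InnerProductSpace ℝ V]
  [NormedAddCommGroup W] [InnerProductSpace ℝ W] [FiniteDimensional ℝ V] [FiniteDimensional ℝ W]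

theorem perp_zero {β : V →ₗ[ℝ] V →ₗ[ℝ] W} {x : V} (hx : x ∈ (LinearMap.ker β)ᗮ) (h : β x = 0) :
    x = 0 := by
  have h1 := (Submodule.orthogonal_disjoint (LinearMap.ker β)).le_bot
    ⟨LinearMap.mem_ker.2 h, hx⟩
  exact (Submodule.mem_bot ℝ).1 h1

theorem neg_of_small {β : V →ₗ[ℝ] V →ₗ[ℝ] W} (hs : ∀ x y, β x y = β y x)
    (hK : ∀ x y, gauss β x y x y ≤ 0)
    (hd : Module.finrank ℝ ((LinearMap.ker β)ᗮ : Submodule ℝ V) ≤ 3) :
    OpNonneg (negT (gauss β)) :=
  negOp_three (gauss_curv hs) gauss_lives hd hK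

theorem neg_one {β : V →ₗ[ℝ] V →ₗ[ℝ] W} (hs : ∀ x y, β x y = β y x)
    (hK : ∀ x y, gauss β x y x y ≤ 0) (hd : Module.finrank ℝ W ≤ 1) :
    OpNonneg (negT (gauss β)) :=
  neg_of_small hs hK ((ker_perp hs hK).trans (by omega))

/-- **Codimension two.** -/
theorem neg_two {β : V →ₗ[ℝ] V →ₗ[ℝ] W} (hs : ∀ x y, β x y = β y x)
    (hK : ∀ x y, gauss β x y x y ≤ 0) (hd : Module.finrank ℝ W ≤ 2) :
    OpNonneg (negT (gauss β)) := by
  have hK' : ∀ x y, inner ℝ (β x x) (β y y) - ‖β x y‖ ^ 2 ≤ 0 := fun x y => by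
    rw [← gauss_sec hs]
    exact hK x y
  by_cases h3 : Module.finrank ℝ ((LinearMap.ker β)ᗮ : Submodule ℝ V) ≤ 3
  · exact neg_of_small hs hK h3
  push Not at h3
  have h4 := ker_perp hs hK
  obtain ⟨T, hTN, hT, hTd⟩ := exists_asym β hs hK' _ (LinearMap.ker β)ᗮ rfl ⊤
    fun _ _ _ _ => Submodule.mem_top
  rw [finrank_top] at hTd
  have hT0 : T ≠ ⊥ := by
    rintro rfl
    rw [finrank_bot] at hTd
    omega
  obtain ⟨y, hy, hy0, p, hp⟩ := exists_rk1 hs hK' T hT (fun x hx h => perp_zero (hTN hx) h) hT0 ⊤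
    (fun _ _ _ => Submodule.mem_top) (by rw [finrank_top]; omega)
  obtain ⟨W', β', u, a, hW', hs', hK'', hG⟩ := reduce hs hK (hT y hy y hy)
    (fun h => hy0 (perp_zero (hTN hy) h)) hp
  exact negOp_congr (negOp_add (neg_one hs' hK'' (by omega)) (negOp_sqT u a)) hG

theorem sup_span {β : V →ₗ[ℝ] V →ₗ[ℝ] W} (hs : ∀ x y, β x y = β y x) {T : Submodule ℝ V}
    (hT : ∀ x ∈ T, ∀ y ∈ T, β x y = 0) {q : V} (hq : β q q = 0) (hTq : ∀ x ∈ T, β x q = 0) :
    ∀ x ∈ T ⊔ Submodule.span ℝ {q}, ∀ y ∈ T ⊔ Submodule.span ℝ {q}, β x y = 0 := by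
  intro x hx y hy
  rw [Submodule.mem_sup] at hx hy
  obtain ⟨t, ht, a, ha, rfl⟩ := hx
  obtain ⟨t', ht', a', ha', rfl⟩ := hy
  rw [Submodule.mem_span_singleton] at ha ha'
  obtain ⟨c, rfl⟩ := ha
  obtain ⟨c', rfl⟩ := ha'
  have h1 := hTq t ht
  have h2 := hTq t' ht'
  simp [map_add, LinearMap.add_apply, map_smul, LinearMap.smul_apply, hT t ht t' ht', h1,
    hs q t', h2, hq]

/-- **Codimension three.** -/
theorem main_three {β : V →ₗ[ℝ] V →ₗ[ℝ] W} (hs : ∀ x y, β x y = β y x)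
    (hK : ∀ x y, gauss β x y x y ≤ 0) (hd : Module.finrank ℝ W ≤ 3) :
    OpNonneg (negT (gauss β)) ∨
      Module.finrank ℝ ((LinearMap.ker β)ᗮ : Submodule ℝ V) ≤ 4 := by
  have hK' : ∀ x y, inner ℝ (β x x) (β y y) - ‖β x y‖ ^ 2 ≤ 0 := fun x y => by
    rw [← gauss_sec hs]
    exact hK x y
  by_cases h4 : Module.finrank ℝ ((LinearMap.ker β)ᗮ : Submodule ℝ V) ≤ 4
  · exact Or.inr h4
  left
  push Not at h4
  have h5 := ker_perp hs hK
  have hW : Module.finrank ℝ W = 3 := by omega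
  by_cases hex : ∃ (y : V) (p : W), β y y = 0 ∧ β y ≠ 0 ∧ ∀ v, ∃ c : ℝ, β y v = c • p
  · obtain ⟨y, p, hyy, hy0, hp⟩ := hex
    obtain ⟨W', β', u, a, hW', hs', hK'', hG⟩ := reduce hs hK hyy hy0 hp
    exact negOp_congr (negOp_add (neg_two hs' hK'' (by omega)) (negOp_sqT u a)) hG
  have hrk : ∀ (y : V) (p : W), β y y = 0 → (∀ v, ∃ c : ℝ, β y v = c • p) → β y = 0 := by
    intro y p hyy hp
    by_contra h
    exact hex ⟨y, p, hyy, h, hp⟩
  set N : Submodule ℝ V := (LinearMap.ker β)ᗮ with hN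
  have hrkT : ∀ T ≤ N, (∀ x ∈ T, ∀ y ∈ T, β x y = 0) → T ≠ ⊥ → ∀ S : Submodule ℝ W,
      (∀ x ∈ T, ∀ v, β x v ∈ S) → Module.finrank ℝ T < Module.finrank ℝ S := by
    intro T hTN hT hT0 S hS
    by_contra hcon
    push Not at hcon
    obtain ⟨y, hy, hy0, p, hp⟩ := exists_rk1 hs hK' T hT (fun x hx h => perp_zero (hTN hx) h) hT0 S
      hS hcon
    exact hy0 (perp_zero (hTN hy) (hrk y p (hT y hy y hy) hp))
  have hH : ∀ T ≤ N, (∀ x ∈ T, ∀ y ∈ T, β x y = 0) → Module.finrank ℝ T ≤ 2 := by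
    intro T hTN hT
    by_cases hT0 : T = ⊥
    · rw [hT0, finrank_bot]
      omega
    · have := hrkT T hTN hT hT0 ⊤ fun _ _ _ => Submodule.mem_top
      rw [finrank_top, hW] at this
      omega
  obtain ⟨T, hTN, hT, hTd⟩ := exists_asym β hs hK' _ N rfl ⊤ fun _ _ _ _ => Submodule.mem_top
  rw [finrank_top] at hTd
  have hT2 := hH T hTN hT
  have hTf : Module.finrank ℝ T = 2 := by omega
  have hNf : Module.finrank ℝ N = 5 := by omega
  have hT0 : T ≠ ⊥ := by
    rintro rfl
    rw [finrank_bot] at hTf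
    omega
  -- the span of the values
  set S : Submodule ℝ W := Submodule.span ℝ {w | ∃ x ∈ T, ∃ v, β x v = w} with hS
  have hSm : ∀ x ∈ T, ∀ v, β x v ∈ S := fun x hx v => Submodule.subset_span ⟨x, hx, v, rfl⟩
  have hStop : S = ⊤ := by
    refine Submodule.eq_top_of_finrank_eq ?_
    have h1 := hrkT T hTN hT hT0 S hSm
    have h2 := Submodule.finrank_le S
    omega
  -- the restriction of `β y` to `N`
  have hrn : ∀ y : V, Module.finrank ℝ (LinearMap.range (β y)) +
      Module.finrank ℝ (N ⊓ LinearMap.ker (β y) : Submodule ℝ V) = 5 := by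
    intro y
    have h1 := LinearMap.finrank_range_add_finrank_ker ((β y).domRestrict N)
    rw [LinearMap.range_domRestrict, LinearMap.ker_domRestrict] at h1
    have h2 : Module.finrank ℝ (Submodule.comap N.subtype (LinearMap.ker (β y))) =
        Module.finrank ℝ (N ⊓ LinearMap.ker (β y) : Submodule ℝ V) := by
      rw [← Submodule.map_comap_subtype]
      exact (LinearEquiv.finrank_eq (Submodule.equivSubtypeMap N _))
    have h3 : N.map (β y) = LinearMap.range (β y) := by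
      refine le_antisymm (LinearMap.map_le_range) ?_
      rintro _ ⟨x, rfl⟩
      obtain ⟨x₁, hx₁, x₂, hx₂, rfl⟩ := Submodule.exists_add_mem_mem_orthogonal (K := N) x
      refine ⟨x₁, hx₁, ?_⟩
      rw [hN, Submodule.orthogonal_orthogonal, LinearMap.mem_ker] at hx₂
      rw [map_add, hs y x₂, hx₂, LinearMap.zero_apply, add_zero]
    rw [h2, h3, hNf] at h1
    exact h1
  obtain ⟨y₀, hy₀, hsur⟩ : ∃ y₀ ∈ T, Function.Surjective (β y₀) := by
    by_contra hcon
    push Not at hcon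
    obtain ⟨y₀, hy₀, hy₀0⟩ := (Submodule.ne_bot_iff _).1 hT0
    have hβ0 : β y₀ ≠ 0 := fun h => hy₀0 (perp_zero (hTN hy₀) h)
    have hr2 : Module.finrank ℝ (LinearMap.range (β y₀)) = 2 := by
      have h1 : Module.finrank ℝ (LinearMap.range (β y₀)) ≤ 3 := by
        rw [← hW]
        exact Submodule.finrank_le _
      have h2 : Module.finrank ℝ (LinearMap.range (β y₀)) ≠ 3 := by
        intro h
        refine hcon y₀ hy₀ (LinearMap.range_eq_top.1 ?_)
        exact Submodule.eq_top_of_finrank_eq (by omega)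
      have h3 : ¬ Module.finrank ℝ (LinearMap.range (β y₀)) ≤ 1 := by
        intro h
        obtain ⟨p, hp⟩ := finrank_le_one_iff.1 h
        refine hβ0 (hrk y₀ p (hT y₀ hy₀ y₀ hy₀) fun v => ?_)
        obtain ⟨c, hc⟩ := hp ⟨β y₀ v, v, rfl⟩
        refine ⟨c, ?_⟩
        have := congrArg Subtype.val hc
        simpa using this.symm
      omega
    have h3 := hrn y₀
    obtain ⟨q₀, hq₀, hq₀T⟩ : ∃ q ∈ (N ⊓ LinearMap.ker (β y₀) : Submodule ℝ V), q ∉ T := by
      by_contra hall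
      push Not at hall
      have h1 := Submodule.finrank_mono (show N ⊓ LinearMap.ker (β y₀) ≤ T from hall)
      omega
    have hyq : β y₀ q₀ = 0 := hq₀.2
    have hTq : ∀ y' ∈ T, β y' q₀ = 0 := by
      intro y' hy'
      by_contra hne
      have hperp : ∀ v, inner ℝ (β y₀ v) (β y' q₀) = 0 := fun v =>
        asym_perp' hs hK' (hT y₀ hy₀ y₀ hy₀) (hT y₀ hy₀ y' hy') hyq v
      have hn : β y' q₀ ∉ LinearMap.range (β y₀) := by
        rintro ⟨v, hv⟩
        have := hperp v
        rw [hv] at this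
        exact hne (inner_self_eq_zero.1 this)
      obtain ⟨ε, -, hε⟩ := exists_surj hyq hn (by omega)
      exact hcon _ (T.add_mem hy₀ (T.smul_mem ε hy')) hε
    have hqq : β q₀ q₀ = 0 := by
      have h1 : β q₀ q₀ ∈ Sᗮ := by
        rw [Submodule.mem_orthogonal]
        intro w hw
        induction hw using Submodule.span_induction with
        | mem w hw =>
          obtain ⟨x, hx, v, rfl⟩ := hw
          exact asym_perp' hs hK' (hT x hx x hx) (hTq x hx) (hTq x hx) v
        | zero => simp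
        | add u u' _ _ h h' => rw [inner_add_left, h, h', add_zero]
        | smul a u _ h => rw [inner_smul_left, h, mul_zero]
      rw [hStop, Submodule.top_orthogonal_eq_bot, Submodule.mem_bot] at h1
      exact h1
    have hle : T ⊔ Submodule.span ℝ {q₀} ≤ N := by
      refine sup_le hTN ?_
      rw [Submodule.span_singleton_le_iff_mem]
      exact hq₀.1
    have h6 := hH _ hle (sup_span hs hT hqq hTq)
    have h7 : T < T ⊔ Submodule.span ℝ {q₀} := by
      refine lt_of_le_of_ne le_sup_left fun h => hq₀T ?_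
      rw [h]
      exact Submodule.mem_sup_right (Submodule.mem_span_singleton_self q₀)
    have h8 := Submodule.finrank_lt_finrank_of_lt h7
    omega
  have hy₀0 : y₀ ≠ 0 := by
    rintro rfl
    have h1 : Module.finrank ℝ (LinearMap.range (β (0 : V))) = 0 := by
      rw [map_zero, LinearMap.range_zero, finrank_bot]
    have h2 : LinearMap.range (β (0 : V)) = ⊤ := LinearMap.range_eq_top.2 hsur
    rw [h2, finrank_top] at h1
    omega
  obtain ⟨y₁, hy₁, hy₁n⟩ : ∃ y ∈ T, y ∉ Submodule.span ℝ {y₀} := by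
    by_contra hall
    push Not at hall
    have h1 := Submodule.finrank_mono (show T ≤ Submodule.span ℝ {y₀} from hall)
    rw [finrank_span_singleton hy₀0] at h1
    omega
  have hTN0 : T = N ⊓ LinearMap.ker (β y₀) := by
    refine Submodule.eq_of_le_of_finrank_eq
      (le_inf hTN fun x hx => LinearMap.mem_ker.2 (hT y₀ hy₀ x hx)) ?_
    have h1 := hrn y₀
    rw [LinearMap.range_eq_top.2 hsur, finrank_top] at h1
    omega
  have hTsp : ∀ t ∈ T, ∃ α γ : ℝ, t = α • y₀ + γ • y₁ := by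
    intro t ht
    have h1 : Submodule.span ℝ {y₀} ⊔ Submodule.span ℝ {y₁} = T := by
      refine Submodule.eq_of_le_of_finrank_eq (sup_le ?_ ?_) ?_
      · rw [Submodule.span_singleton_le_iff_mem]
        exact hy₀
      · rw [Submodule.span_singleton_le_iff_mem]
        exact hy₁
      · have h2 : Submodule.span ℝ {y₀} < Submodule.span ℝ {y₀} ⊔ Submodule.span ℝ {y₁} := by
          refine lt_of_le_of_ne le_sup_left fun h => hy₁n ?_
          rw [h]
          exact Submodule.mem_sup_right (Submodule.mem_span_singleton_self y₁)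
        have h3 := Submodule.finrank_lt_finrank_of_lt h2
        rw [finrank_span_singleton hy₀0] at h3
        have h4 : Module.finrank ℝ (Submodule.span ℝ {y₀} ⊔ Submodule.span ℝ {y₁} :
            Submodule ℝ V) ≤ Module.finrank ℝ T := by
          refine Submodule.finrank_mono (sup_le ?_ ?_)
          · rw [Submodule.span_singleton_le_iff_mem]
            exact hy₀
          · rw [Submodule.span_singleton_le_iff_mem]
            exact hy₁
        omega
    rw [← h1, Submodule.mem_sup] at ht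
    obtain ⟨a, ha, c, hc, rfl⟩ := ht
    rw [Submodule.mem_span_singleton] at ha hc
    obtain ⟨α, rfl⟩ := ha
    obtain ⟨γ, rfl⟩ := hc
    exact ⟨α, γ, rfl⟩
  refine diag hs hK hW (hT y₀ hy₀ y₀ hy₀) (hT y₀ hy₀ y₁ hy₁) (hT y₁ hy₁ y₁ hy₁) hsur ?_ hrk ?_
  · intro t ht
    obtain ⟨x₁, hx₁, x₂, hx₂, rfl⟩ := Submodule.exists_add_mem_mem_orthogonal (K := N) t
    rw [hN, Submodule.orthogonal_orthogonal, LinearMap.mem_ker] at hx₂
    have h1 : x₁ ∈ T := by
      rw [hTN0]
      refine ⟨hx₁, ?_⟩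
      rw [SetLike.mem_coe, LinearMap.mem_ker]
      rw [map_add, hs y₀ x₂, hx₂, LinearMap.zero_apply, add_zero] at ht
      exact ht
    obtain ⟨α, γ, h2⟩ := hTsp x₁ h1
    refine ⟨α, γ, fun v => ?_⟩
    rw [map_add, hx₂, h2]
    simp
  · intro c h
    have h1 : y₁ - c • y₀ ∈ T := T.sub_mem hy₁ (T.smul_mem c hy₀)
    have h2 := perp_zero (hTN h1) h
    apply hy₁n
    rw [Submodule.mem_span_singleton]
    exact ⟨c, (sub_eq_zero.1 h2).symm⟩

end Pool.Agent.Run7.H25.GS
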