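import Pool.Agent.Run7.h25.GS.Sym
import Pool.Agent.Y489.SM.Fa
import Pool.Agent.W669.HD.Stm

/-!
# Reduction by vectors of rank one; curvature tensors living on three-dimensional subspaces
-/

set_option autoImplicit false
set_option linter.unusedSectionVars false

namespace Pool.Agent.Run7.H25.GS

open Finset Pool.Agent.Y489.SM Pool.Agent.W666.GB Pool.Agent.W669.HD

section op

variable {V : Type} [NormedAddCommGroup V] [InnerProductSpace ℝ V]

theorem negOp_add {R R' : V → V → V → V → ℝ} (h : OpNonneg (negT R)) (h' : OpNonneg (negT R')) :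
    OpNonneg (negT (addT R R')) := by
  intro n x y
  have h1 := h n x y
  have h2 := h' n x y
  simp only [negT, addT, neg_add, Finset.sum_add_distrib] at h1 h2 ⊢
  linarith

theorem negOp_zero : OpNonneg (negT (fun _ _ _ _ : V => (0 : ℝ))) := by
  intro n x y
  simp [negT]

/-- minus the square of a bivector -/
def sqT (u a : V → ℝ) (x y z w : V) : ℝ := -((u x * a y - a x * u y) * (u z * a w - a z * u w))

theorem negOp_sqT (u a : V → ℝ) : OpNonneg (negT (sqT u a)) := by
  intro n x y
  have h1 : ∑ i, ∑ j, negT (sqT u a) (x i) (y i) (x j) (y j) =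
      (∑ i, (u (x i) * a (y i) - a (x i) * u (y i))) ^ 2 := by
    rw [sq, Finset.sum_mul_sum]
    refine Finset.sum_congr rfl fun i _ => Finset.sum_congr rfl fun j _ => ?_
    simp only [negT, sqT]
    ring
  rw [h1]
  exact sq_nonneg _

theorem negOp_congr {R R' : V → V → V → V → ℝ} (h : OpNonneg (negT R))
    (he : ∀ x y z w, R' x y z w = R x y z w) : OpNonneg (negT R') := by
  have : R' = R := by
    funext x y z w
    exact he x y z w
  rwa [this]

theorem negOp_sum {k : ℕ} {R : Fin k → V → V → V → V → ℝ} (h : ∀ i, OpNonneg (negT (R i))) :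
    OpNonneg (negT fun x y z w => ∑ i, R i x y z w) := by
  intro n x y
  have h1 : ∑ a, ∑ b, negT (fun x y z w => ∑ i, R i x y z w) (x a) (y a) (x b) (y b) =
      ∑ i, ∑ a, ∑ b, negT (R i) (x a) (y a) (x b) (y b) := by
    simp only [negT, ← Finset.sum_neg_distrib]
    rw [Finset.sum_congr rfl fun a _ => Finset.sum_comm, Finset.sum_comm]
  rw [h1]
  exact Finset.sum_nonneg fun i _ => h i n x y

variable {R : V → V → V → V → ℝ}

theorem cadd₂ (hR : AlgCurv R) (x y y' z w : V) : R x (y + y') z w = R x y z w + R x y' z w := by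
  rw [hR.anti, hR.add, hR.anti y x, hR.anti y' x]
  have h1 := hR.anti y x z w
  have h2 := hR.anti y' x z w
  linarith

theorem csmul₂ (hR : AlgCurv R) (t : ℝ) (x y z w : V) : R x (t • y) z w = t * R x y z w := by
  rw [hR.anti, hR.smul, hR.anti x y]
  ring

theorem cself (hR : AlgCurv R) (x z w : V) : R x x z w = 0 := by
  have := hR.anti x x z w
  linarith

theorem aux_dec (hR : AlgCurv R) (p q : V) {a b : ℝ} (h : a ≠ 0 ∨ b ≠ 0) :
    ∃ q', ∀ z w, R (a • p + b • q) q' z w = R p q z w := by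
  rcases h with h | h
  · refine ⟨a⁻¹ • q, fun z w => ?_⟩
    rw [csmul₂ hR, hR.add, hR.smul, hR.smul, cself hR]
    field_simp
    ring
  · refine ⟨(-b⁻¹) • p, fun z w => ?_⟩
    rw [csmul₂ hR, hR.add, hR.smul, hR.smul, cself hR, hR.anti p q]
    field_simp
    ring

theorem dec_two [FiniteDimensional ℝ V] (hR : AlgCurv R) {U : Submodule ℝ V} (hU : LivesOn U R)
    (hd : Module.finrank ℝ U ≤ 3) (p q x y : V) :
    ∃ p' q', ∀ z w, R p q z w + R x y z w = R p' q' z w := by
  set P := U.orthogonalProjectionOnto with hP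
  have hP0 : ∀ e e' : V, P (e - e') = 0 → ∀ y z w, R e y z w = R e' y z w := by
    intro e e' h y z w
    have h1 : e - e' ∈ Uᗮ := by
      rwa [hP, Submodule.orthogonalProjectionOnto_eq_zero_iff] at h
    have h2 := hU _ h1 y z w
    have h3 : R e y z w = R ((e - e') + e') y z w := by
      congr 1
      abel
    rw [h3, hR.add, h2, zero_add]
  obtain ⟨g, hg, i₀, hi₀⟩ : ∃ g : Fin 4 → ℝ, ∑ i, g i • ![P p, P q, P x, P y] i = 0 ∧
      ∃ i, g i ≠ 0 := by
    rw [← Fintype.not_linearIndependent_iff]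
    intro hli
    have := hli.fintype_card_le_finrank
    simp at this
    omega
  have hPe : P ((g 0 • p + g 1 • q) - (-(g 2 • x + g 3 • y))) = 0 := by
    rw [← hg]
    simp only [Fin.sum_univ_four, map_sub, map_add, map_neg, map_smul]
    simp
    abel
  have hE := hP0 _ _ hPe
  by_cases h01 : g 0 ≠ 0 ∨ g 1 ≠ 0
  · by_cases h23 : g 2 ≠ 0 ∨ g 3 ≠ 0
    · obtain ⟨q', hq'⟩ := aux_dec hR p q h01
      obtain ⟨y', hy'⟩ := aux_dec hR x y h23
      refine ⟨g 0 • p + g 1 • q, q' - y', fun z w => ?_⟩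
      rw [← hq', ← hy', sub_eq_add_neg, cadd₂ hR, hE (-y')]
      have h1 : (-(g 2 • x + g 3 • y) : V) = (-1 : ℝ) • (g 2 • x + g 3 • y) :=
        (neg_one_smul ℝ _).symm
      have h2 : -y' = (-1 : ℝ) • y' := by simp
      rw [h1, h2, hR.smul, csmul₂ hR]
      ring
    · push Not at h23
      refine ⟨x, y, fun z w => ?_⟩
      obtain ⟨q', hq'⟩ := aux_dec hR p q h01
      rw [← hq', hE, h23.1, h23.2]
      have h1 : (-((0 : ℝ) • x + (0 : ℝ) • y) : V) = (0 : ℝ) • x := by simp
      rw [h1, hR.smul]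
      ring
  · push Not at h01
    have h23 : g 2 ≠ 0 ∨ g 3 ≠ 0 := by
      by_contra hcon
      push Not at hcon
      apply hi₀
      fin_cases i₀
      · exact h01.1
      · exact h01.2
      · exact hcon.1
      · exact hcon.2
    refine ⟨p, q, fun z w => ?_⟩
    obtain ⟨y', hy'⟩ := aux_dec hR x y h23
    have h1 := hE y' z w
    rw [h01.1, h01.2] at h1
    have h2 : ((0 : ℝ) • p + (0 : ℝ) • q : V) = (0 : ℝ) • p := by simp
    have h3 : (-(g 2 • x + g 3 • y) : V) = (-1 : ℝ) • (g 2 • x + g 3 • y) :=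
        (neg_one_smul ℝ _).symm
    rw [h2, h3, hR.smul, hR.smul, hy'] at h1
    linarith

/-- **Tensors living on subspaces of dimension at most three.** -/
theorem negOp_three [FiniteDimensional ℝ V] (hR : AlgCurv R) {U : Submodule ℝ V}
    (hU : LivesOn U R) (hd : Module.finrank ℝ U ≤ 3) (hK : ∀ x y, R x y x y ≤ 0) :
    OpNonneg (negT R) := by
  have hdec : ∀ (n : ℕ) (x y : Fin n → V), ∃ p q, ∀ z w, ∑ a, R (x a) (y a) z w = R p q z w := by
    intro n
    induction n with
    | zero =>
      intro x y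
      refine ⟨0, 0, fun z w => ?_⟩
      rw [cself hR]
      simp
    | succ n ih =>
      intro x y
      obtain ⟨p, q, hpq⟩ := ih (fun a => x a.succ) (fun a => y a.succ)
      obtain ⟨p', q', hpq'⟩ := dec_two hR hU hd (x 0) (y 0) p q
      refine ⟨p', q', fun z w => ?_⟩
      rw [Fin.sum_univ_succ, ← hpq', ← hpq]
  intro n x y
  obtain ⟨p, q, hpq⟩ := hdec n x y
  have h1 : ∑ a, ∑ b, negT R (x a) (y a) (x b) (y b) = -R p q p q := by
    simp only [negT, Finset.sum_neg_distrib]
    congr 1
    rw [Finset.sum_comm]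
    simp only [hpq]
    have : ∀ b, R p q (x b) (y b) = R (x b) (y b) p q := fun b => hR.pair _ _ _ _
    simp only [this, hpq]
  rw [h1]
  linarith [hK p q]

end op

section red

variable {V W : Type} [NormedAddCommGroup V] [InnerProductSpace ℝ V]
  [NormedAddCommGroup W] [InnerProductSpace ℝ W]

theorem split_form (h : V →ₗ[ℝ] V →ₗ[ℝ] ℝ) (hs : ∀ x y, h x y = h y x) (u : V →ₗ[ℝ] ℝ) (v : V)
    (hv : u v = 1) (h0 : ∀ x y, u x = 0 → u y = 0 → h x y = 0) :
    ∃ a : V →ₗ[ℝ] ℝ, ∀ x y, h x y = u x * a y + a x * u y := by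
  refine ⟨h v - (h v v / 2) • u, fun x y => ?_⟩
  have h1 := h0 (x - u x • v) (y - u y • v) (by simp [hv]) (by simp [hv])
  simp only [map_sub, map_smul, LinearMap.sub_apply, LinearMap.smul_apply, smul_eq_mul] at h1 ⊢
  rw [hs x v] at h1
  linarith

/-- **Reduction of the codimension by a vector of rank one.** -/
theorem reduce {β : V →ₗ[ℝ] V →ₗ[ℝ] W} (hs : ∀ x y, β x y = β y x)
    (hK : ∀ x y, gauss β x y x y ≤ 0) [FiniteDimensional ℝ W] {y : V} {p : W} (hyy : β y y = 0)
    (hy : β y ≠ 0) (hp : ∀ v, ∃ c : ℝ, β y v = c • p) :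
    ∃ (W' : Submodule ℝ W) (β' : V →ₗ[ℝ] V →ₗ[ℝ] W') (u a : V →ₗ[ℝ] ℝ),
      Module.finrank ℝ W' + 1 = Module.finrank ℝ W ∧ (∀ x y, β' x y = β' y x) ∧
      (∀ x y, gauss β' x y x y ≤ 0) ∧
      ∀ x y z w, gauss β x y z w = gauss β' x y z w + sqT u a x y z w := by
  have hK' : ∀ x y, inner ℝ (β x x) (β y y) - ‖β x y‖ ^ 2 ≤ 0 := fun x y => by
    rw [← gauss_sec hs]
    exact hK x y
  have hp0 : p ≠ 0 := by
    intro h
    apply hy
    ext v
    obtain ⟨c, hc⟩ := hp v
    rw [hc, h, smul_zero]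
    rfl
  set w : W := ‖p‖⁻¹ • p with hw
  have hpn : ‖p‖ ≠ 0 := norm_ne_zero_iff.2 hp0
  have hw1 : ‖w‖ = 1 := by
    rw [hw, norm_smul, norm_inv, norm_norm, inv_mul_cancel₀ hpn]
  have hww : inner ℝ w w = (1 : ℝ) := by rw [real_inner_self_eq_norm_sq, hw1, one_pow]
  -- the functional
  set u : V →ₗ[ℝ] ℝ := (innerₛₗ ℝ w) ∘ₗ (β y) with hu
  have hu' : ∀ v, u v = inner ℝ w (β y v) := fun v => rfl
  have hyv : ∀ v, β y v = u v • w := by
    intro v
    obtain ⟨c, hc⟩ := hp v
    rw [hu', hc, hw, inner_smul_left, inner_smul_right, real_inner_self_eq_norm_sq, smul_smul]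
    congr 1
    simp only [conj_trivial]
    field_simp
  obtain ⟨v₁, hv₁⟩ : ∃ v, u v = 1 := by
    have : ∃ v, u v ≠ 0 := by
      by_contra hcon
      push Not at hcon
      apply hy
      ext v
      rw [hyv, hcon, zero_smul]
      rfl
    obtain ⟨v, hv⟩ := this
    exact ⟨(u v)⁻¹ • v, by rw [map_smul, smul_eq_mul, inv_mul_cancel₀ hv]⟩
  set h : V →ₗ[ℝ] V →ₗ[ℝ] ℝ := bil β w with hh
  have hh' : ∀ x z, h x z = inner ℝ w (β x z) := fun x z => rfl
  have huy : u y = 0 := by rw [hu', hyy, inner_zero_right]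
  have h0 : ∀ x z, u x = 0 → u z = 0 → h x z = 0 := by
    intro x z hx hz
    have h1 := asym_perp' hs hK' hyy (u := x) (u' := z) (by rw [hyv, hx, zero_smul])
      (by rw [hyv, hz, zero_smul]) v₁
    rwa [hyv, hv₁, one_smul] at h1
  obtain ⟨a, ha⟩ := split_form h (fun x z => by rw [hh', hh', hs]) u v₁ hv₁ h0
  have hay : a y = 1 := by
    have h1 := ha y v₁
    rw [hh', hyv, hv₁, one_smul, hww, huy] at h1
    linarith
  -- the reduced form
  set W' : Submodule ℝ W := (Submodule.span ℝ {w})ᗮ with hW'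
  have hmem : ∀ x z, β x z - h x z • w ∈ W' := by
    intro x z
    rw [hW', Submodule.mem_orthogonal_singleton_iff_inner_right, inner_sub_right,
      inner_smul_right, hww, hh']
    ring
  set β' : V →ₗ[ℝ] V →ₗ[ℝ] W' := LinearMap.mk₂ ℝ (fun x z => ⟨β x z - h x z • w, hmem x z⟩)
    (fun x x' z => Subtype.ext (by simp [add_smul]; abel))
    (fun t x z => Subtype.ext (by simp [smul_sub, smul_smul]))
    (fun x z z' => Subtype.ext (by simp [add_smul]; abel))
    (fun t x z => Subtype.ext (by simp [smul_sub, smul_smul])) with hβ'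
  have hβv : ∀ x z, ((β' x z : W') : W) = β x z - h x z • w := fun x z => rfl
  have hinn : ∀ x z x' z', inner ℝ (β' x z) (β' x' z') =
      inner ℝ (β x z) (β x' z') - h x z * h x' z' := by
    intro x z x' z'
    rw [Submodule.coe_inner, hβv, hβv]
    simp only [inner_sub_left, inner_sub_right, inner_smul_left, inner_smul_right, hww,
      conj_trivial]
    rw [real_inner_comm w (β x z), ← hh', ← hh']
    ring
  have hG : ∀ x y z w, gauss β x y z w = gauss β' x y z w + sqT u a x y z w := by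
    intro x y z w
    simp only [gauss, hinn, sqT]
    rw [ha x z, ha y w, ha x w, ha y z]
    ring
  refine ⟨W', β', u, a, ?_, ?_, ?_, hG⟩
  · have h1 := Submodule.finrank_add_finrank_orthogonal (Submodule.span ℝ {w})
    have h2 : Module.finrank ℝ (Submodule.span ℝ {w}) = 1 := finrank_span_singleton (by
      intro h
      rw [h, norm_zero] at hw1
      exact zero_ne_one hw1)
    rw [h2, ← hW'] at h1
    omega
  · intro x z
    apply Subtype.ext
    rw [hβv, hβv, hs, hh', hh', hs x z]
  · intro x z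
    have hβy : ∀ v, β' y v = 0 := by
      intro v
      apply Subtype.ext
      rw [hβv, hh', hyv, inner_smul_right, hww, mul_one]
      simp
    have hβy' : ∀ v, β' v y = 0 := by
      intro v
      apply Subtype.ext
      rw [hβv, hh', hs, hyv, inner_smul_right, hww, mul_one]
      simp
    obtain ⟨s, t, hst⟩ : ∃ s t : ℝ, u (x + s • y) * a (z + t • y) -
        a (x + s • y) * u (z + t • y) = 0 := by
      simp only [map_add, map_smul, smul_eq_mul, huy, hay, mul_zero, add_zero, mul_one]
      by_cases hx : u x = 0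
      · by_cases hz : u z = 0
        · exact ⟨0, 0, by rw [hx, hz]; ring⟩
        · refine ⟨(u x * a z - a x * u z) / u z, 0, ?_⟩
          field_simp
          ring
      · refine ⟨0, -(u x * a z - a x * u z) / u x, ?_⟩
        field_simp
        ring
    have h1 := hK (x + s • y) (z + t • y)
    rw [hG] at h1
    have h2 : sqT u a (x + s • y) (z + t • y) (x + s • y) (z + t • y) = 0 := by
      simp only [sqT]
      rw [hst]
      ring
    have h3 : gauss β' (x + s • y) (z + t • y) (x + s • y) (z + t • y) = gauss β' x z x z := by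
      simp only [gauss, map_add, LinearMap.add_apply, map_smul, LinearMap.smul_apply, hβy, hβy',
        smul_zero, add_zero]
    rw [h2, h3, add_zero] at h1
    exact h1

end red

end Pool.Agent.Run7.H25.GS
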