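import Pool.Agent.Y489.SM.Ld

/-!
# Asymptotic subspaces of bilinear forms with nonpositive curvature: symmetric operators
-/

set_option autoImplicit false

namespace Pool.Agent.Run7.H25.GS

open Finset Pool.Agent.Y489.SM

variable {V W : Type} [NormedAddCommGroup V] [InnerProductSpace ℝ V]
  [NormedAddCommGroup W] [InnerProductSpace ℝ W]

theorem lead_nonpos {A B C : ℝ} (h : ∀ t : ℝ, A * t ^ 2 + B * t + C ≤ 0) : A ≤ 0 := by
  by_contra hA
  push Not at hA
  have h1 := h ((|B| + |C|) / A + 1)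
  have h2 := h (-((|B| + |C|) / A + 1))
  set t := (|B| + |C|) / A + 1 with ht
  have h3 : A * t = |B| + |C| + A := by
    rw [ht]
    field_simp
  have h4 : 1 ≤ t := by
    have : 0 ≤ (|B| + |C|) / A := by positivity
    linarith
  have h5 : A * t ^ 2 = (|B| + |C| + A) * t := by
    rw [← h3]
    ring
  have h6 : |C| < (|B| + |C| + A) * t := by
    have hb := abs_nonneg B
    have hc := abs_nonneg C
    nlinarith
  have h7 : -|C| ≤ C := neg_abs_le C
  nlinarith

/-- the basic inequality for asymptotic planes -/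
theorem basic {β : V →ₗ[ℝ] V →ₗ[ℝ] W} (hs : ∀ x y, β x y = β y x)
    (hK : ∀ x y, inner ℝ (β x x) (β y y) - ‖β x y‖ ^ 2 ≤ 0) {y y' : V} (h1 : β y y = 0)
    (h2 : β y' y' = 0) (h3 : β y y' = 0) (v v' : V) :
    4 * inner ℝ (β y v) (β y' v') ≤ ‖β y v' + β y' v‖ ^ 2 := by
  have key : ∀ t : ℝ, (4 * inner ℝ (β y v) (β y' v') - ‖β y v' + β y' v‖ ^ 2) * t ^ 2 +
      (2 * inner ℝ (β y v) (β v' v') + 2 * inner ℝ (β v v) (β y' v') -
        2 * inner ℝ (β y v' + β y' v) (β v v')) * t +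
      (inner ℝ (β v v) (β v' v') - ‖β v v'‖ ^ 2) ≤ 0 := by
    intro t
    have h4 := hK (t • y + v) (t • y' + v')
    have e1 : β (t • y + v) (t • y + v) = (2 * t) • β y v + β v v := by
      simp only [map_add, LinearMap.add_apply, map_smul, LinearMap.smul_apply, hs v y, h1]
      module
    have e2 : β (t • y' + v') (t • y' + v') = (2 * t) • β y' v' + β v' v' := by
      simp only [map_add, LinearMap.add_apply, map_smul, LinearMap.smul_apply, hs v' y', h2]
      module
    have e3 : β (t • y + v) (t • y' + v') = t • (β y v' + β y' v) + β v v' := by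
      simp only [map_add, LinearMap.add_apply, map_smul, LinearMap.smul_apply, hs v y', h3]
      module
    rw [e1, e2, e3, norm_add_sq_real, norm_smul, mul_pow, Real.norm_eq_abs, sq_abs] at h4
    simp only [inner_add_left, inner_add_right, inner_smul_left, inner_smul_right,
      conj_trivial] at h4 ⊢
    nlinarith
  have := lead_nonpos key
  linarith

/-- operators with the basic inequality are symmetric -/
theorem symm_of_ineq {S : Type} [NormedAddCommGroup S] [InnerProductSpace ℝ S]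
    [FiniteDimensional ℝ S] (C : S →ₗ[ℝ] S)
    (h : ∀ p q : S, 4 * inner ℝ p (C q) ≤ ‖q + C p‖ ^ 2) : C.IsSymmetric := by
  set D := LinearMap.adjoint C with hD
  have h1 : ∀ p, ‖D p‖ ^ 2 ≤ inner ℝ (D p) (C p) := by
    intro p
    have h2 := h p ((2 : ℝ) • D p - C p)
    have h3 : inner ℝ p (C ((2 : ℝ) • D p - C p)) = 2 * ‖D p‖ ^ 2 - inner ℝ (D p) (C p) := by
      rw [← LinearMap.adjoint_inner_left C, ← hD, inner_sub_right, inner_smul_right,
        real_inner_self_eq_norm_sq]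
    have h4 : (2 : ℝ) • D p - C p + C p = (2 : ℝ) • D p := by module
    rw [h3, h4, norm_smul, mul_pow] at h2
    norm_num at h2
    linarith
  set b := stdOrthonormalBasis ℝ S with hb
  have h2 : ∑ i, ‖D (b i)‖ ^ 2 = ∑ i, ‖C (b i)‖ ^ 2 := by
    have e1 : ∀ z : S, ‖z‖ ^ 2 = ∑ j, inner ℝ (b j) z ^ 2 := by
      intro z
      rw [← real_inner_self_eq_norm_sq, ← b.sum_inner_mul_inner z z]
      refine Finset.sum_congr rfl fun j _ => ?_
      rw [real_inner_comm z (b j)]
      ring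
    simp only [e1]
    rw [Finset.sum_comm]
    refine Finset.sum_congr rfl fun j _ => Finset.sum_congr rfl fun i _ => ?_
    rw [hD, LinearMap.adjoint_inner_right, real_inner_comm]
  have h3 : ∑ i, ‖D (b i) - C (b i)‖ ^ 2 ≤ 0 := by
    have e1 : ∀ i, ‖D (b i) - C (b i)‖ ^ 2 =
        ‖D (b i)‖ ^ 2 - 2 * inner ℝ (D (b i)) (C (b i)) + ‖C (b i)‖ ^ 2 := fun i =>
      norm_sub_sq_real _ _
    simp only [e1, Finset.sum_add_distrib, Finset.sum_sub_distrib]
    have e2 : ∑ i, ‖D (b i)‖ ^ 2 ≤ ∑ i, inner ℝ (D (b i)) (C (b i)) :=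
      Finset.sum_le_sum fun i _ => h1 (b i)
    rw [← Finset.mul_sum, ← h2]
    linarith
  have h4 : ∀ i, D (b i) = C (b i) := by
    intro i
    have e1 := (Finset.sum_eq_zero_iff_of_nonneg fun i _ => sq_nonneg ‖D (b i) - C (b i)‖).1
      (le_antisymm h3 (Finset.sum_nonneg fun i _ => sq_nonneg _)) i (Finset.mem_univ i)
    have e2 : ‖D (b i) - C (b i)‖ = 0 := by
      exact pow_eq_zero_iff (two_ne_zero) |>.1 e1
    exact sub_eq_zero.1 (norm_eq_zero.1 e2)
  have h5 : D = C := b.toBasis.ext fun i => by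
    rw [b.coe_toBasis]
    exact h4 i
  intro x y
  rw [← LinearMap.adjoint_inner_right, ← hD, h5]

/-- the operator of an asymptotic plane containing a vector `y` for which `β y` is onto -/
theorem exists_opM [FiniteDimensional ℝ W] {β : V →ₗ[ℝ] V →ₗ[ℝ] W} (hs : ∀ x y, β x y = β y x)
    (hK : ∀ x y, inner ℝ (β x x) (β y y) - ‖β x y‖ ^ 2 ≤ 0) {y y' : V} (h1 : β y y = 0)
    (h2 : β y' y' = 0) (h3 : β y y' = 0) (hsur : Function.Surjective (β y)) :
    ∃ C : W →ₗ[ℝ] W, C.IsSymmetric ∧ ∀ v, C (β y v) = β y' v := by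
  obtain ⟨g, hg⟩ := (β y).exists_rightInverse_of_surjective (LinearMap.range_eq_top.2 hsur)
  have hker : ∀ u, β y u = 0 → β y' u = 0 := by
    intro u hu
    obtain ⟨w, hw⟩ := hsur (β y' u)
    have h4 := asym_perp' hs hK h1 h3 hu w
    rw [hw] at h4
    exact inner_self_eq_zero.1 h4
  have hC : ∀ v, ((β y') ∘ₗ g) (β y v) = β y' v := by
    intro v
    have h4 : β y (g (β y v) - v) = 0 := by
      rw [map_sub, sub_eq_zero]
      have := congrArg (fun f => f (β y v)) hg
      simpa using this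
    have h5 := hker _ h4
    rw [map_sub, sub_eq_zero] at h5
    simpa using h5
  refine ⟨(β y') ∘ₗ g, symm_of_ineq _ fun p q => ?_, hC⟩
  obtain ⟨v, rfl⟩ := hsur p
  obtain ⟨v', rfl⟩ := hsur q
  rw [hC, hC]
  exact basic hs hK h1 h2 h3 v v'

theorem symM [FiniteDimensional ℝ W] {β : V →ₗ[ℝ] V →ₗ[ℝ] W} (hs : ∀ x y, β x y = β y x)
    (hK : ∀ x y, inner ℝ (β x x) (β y y) - ‖β x y‖ ^ 2 ≤ 0) {y y' : V} (h1 : β y y = 0)
    (h2 : β y' y' = 0) (h3 : β y y' = 0) (hsur : Function.Surjective (β y)) (v v' : V) :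
    inner ℝ (β y' v) (β y v') = inner ℝ (β y v) (β y' v') := by
  obtain ⟨C, hC, hCv⟩ := exists_opM hs hK h1 h2 h3 hsur
  have := hC (β y v) (β y v')
  rwa [hCv, hCv] at this

/-- small perturbations: `β` becomes onto -/
theorem exists_surj [FiniteDimensional ℝ W] {β : V →ₗ[ℝ] V →ₗ[ℝ] W}
    {y y' x : V} (hx : β y x = 0) (hn : β y' x ∉ LinearMap.range (β y))
    (hr : Module.finrank ℝ W ≤ Module.finrank ℝ (LinearMap.range (β y)) + 1) :
    ∃ ε : ℝ, ε ≠ 0 ∧ Function.Surjective (β (y + ε • y')) := by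
  set r := Module.finrank ℝ (LinearMap.range (β y)) with hrdef
  set b := Module.finBasis ℝ (LinearMap.range (β y)) with hb
  have hbx : ∀ i, ∃ z : V, β y z = b i := by
    intro i
    obtain ⟨z, hz⟩ := (b i).2
    exact ⟨z, hz⟩
  choose z hz using hbx
  set F : ℝ → Option (Fin r) → W := fun t o => o.casesOn' (β y' x) fun i => β (y + t • y') (z i)
    with hF
  have hF0 : LinearIndependent ℝ (F 0) := by
    have h1 : LinearIndependent ℝ fun i : Fin r => β (y + (0 : ℝ) • y') (z i) := by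
      have h2 : (fun i : Fin r => β (y + (0 : ℝ) • y') (z i)) =
          (LinearMap.range (β y)).subtype ∘ b := by
        funext i
        simp [hz]
      rw [h2]
      exact b.linearIndependent.map' _ (Submodule.ker_subtype _)
    refine LinearIndependent.option h1 fun hmem => hn ?_
    refine Submodule.span_le.2 ?_ hmem
    rintro _ ⟨i, rfl⟩
    exact ⟨z i, by simp⟩
  have hFc : Continuous F := by
    refine continuous_pi fun o => ?_
    cases o with
    | none => exact continuous_const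
    | some i =>
      have : (fun t : ℝ => F t (some i)) = fun t => β y (z i) + t • β y' (z i) := by
        funext t
        simp [hF]
      rw [this]
      fun_prop
  have hev : ∀ᶠ t in nhds (0 : ℝ), LinearIndependent ℝ (F t) :=
    hFc.continuousAt.eventually hF0.eventually
  obtain ⟨t, ht, ht0⟩ : ∃ t : ℝ, LinearIndependent ℝ (F t) ∧ t ≠ 0 := by
    have h1 : ∀ᶠ t in nhdsWithin (0 : ℝ) {0}ᶜ, LinearIndependent ℝ (F t) :=
      hev.filter_mono nhdsWithin_le_nhds
    obtain ⟨t, h2, h3⟩ := (h1.and self_mem_nhdsWithin).exists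
    exact ⟨t, h2, h3⟩
  refine ⟨t, ht0, ?_⟩
  have hmem : ∀ o, F t o ∈ LinearMap.range (β (y + t • y')) := by
    intro o
    cases o with
    | none =>
      refine ⟨t⁻¹ • x, ?_⟩
      simp only [map_smul, map_add, LinearMap.add_apply, hx,
        LinearMap.smul_apply, zero_add, smul_smul, inv_mul_cancel₀ ht0, one_smul]
      rfl
    | some i => exact ⟨z i, rfl⟩
  rw [← LinearMap.range_eq_top]
  have h1 : r + 1 ≤ Module.finrank ℝ (LinearMap.range (β (y + t • y'))) := by
    have h2 : LinearIndependent ℝ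
        (fun o => (⟨F t o, hmem o⟩ : LinearMap.range (β (y + t • y')))) := by
      apply LinearIndependent.of_comp (LinearMap.range (β (y + t • y'))).subtype
      exact ht
    have h3 := h2.fintype_card_le_finrank
    simpa using h3
  refine Submodule.eq_top_of_finrank_eq (le_antisymm (Submodule.finrank_le _) ?_)
  omega

variable [FiniteDimensional ℝ V] [FiniteDimensional ℝ W]

/-- regular vectors -/
theorem exists_regular {β : V →ₗ[ℝ] V →ₗ[ℝ] W} (hs : ∀ x y, β x y = β y x)
    (hK : ∀ x y, inner ℝ (β x x) (β y y) - ‖β x y‖ ^ 2 ≤ 0) (T : Submodule ℝ V)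
    (hT : ∀ x ∈ T, ∀ y ∈ T, β x y = 0) : ∃ v, ∀ x ∈ T, β v x = 0 → β x = 0 := by
  obtain ⟨v, hv⟩ : ∃ v : V, ∀ w : V, Module.finrank ℝ (LinearMap.range ((β w).domRestrict T)) ≤
      Module.finrank ℝ (LinearMap.range ((β v).domRestrict T)) := by
    have hbd : BddAbove (Set.range fun v : V =>
        Module.finrank ℝ (LinearMap.range ((β v).domRestrict T))) := by
      refine ⟨Module.finrank ℝ W, ?_⟩
      rintro _ ⟨v, rfl⟩
      exact Submodule.finrank_le _
    obtain ⟨v, hv⟩ := Nat.sSup_mem (Set.range_nonempty _) hbd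
    refine ⟨v, fun w => ?_⟩
    simp only at hv
    rw [hv]
    exact le_csSup hbd ⟨w, rfl⟩
  refine ⟨v, ?_⟩
  intro x hx hvx
  ext w
  rw [LinearMap.zero_apply]
  by_contra hne
  have hxx : β x x = 0 := hT x hx x hx
  have hxv : β x v = 0 := by rw [hs, hvx]
  have hperp : ∀ z ∈ T, inner ℝ (β x w) (β v z) = 0 := by
    intro z hz
    exact asym_perp' hs hK hxx hxv (hT x hx z hz) w
  set r := Module.finrank ℝ (LinearMap.range ((β v).domRestrict T)) with hr
  set b := Module.finBasis ℝ (LinearMap.range ((β v).domRestrict T)) with hb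
  have hbx : ∀ i, ∃ z : T, β v z = b i := by
    intro i
    obtain ⟨z, hz⟩ := (b i).2
    exact ⟨z, hz⟩
  choose z hz using hbx
  set F : ℝ → Option (Fin r) → W := fun t o => o.casesOn' (β x w) fun i => β (v + t • w) (z i)
    with hF
  have hF0 : LinearIndependent ℝ (F 0) := by
    have h1 : LinearIndependent ℝ fun i : Fin r => β (v + (0 : ℝ) • w) (z i) := by
      have h2 : (fun i : Fin r => β (v + (0 : ℝ) • w) (z i)) =
          (LinearMap.range ((β v).domRestrict T)).subtype ∘ b := by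
        funext i
        simp [hz]
      rw [h2]
      exact b.linearIndependent.map' _ (Submodule.ker_subtype _)
    refine LinearIndependent.option h1 fun hmem => ?_
    have h3 : β x w ∈ (Submodule.span ℝ
        (Set.range fun i : Fin r => β (v + (0 : ℝ) • w) (z i)))ᗮ := by
      rw [Submodule.mem_orthogonal]
      intro u hu
      induction hu using Submodule.span_induction with
      | mem u hu =>
        obtain ⟨i, rfl⟩ := hu
        rw [real_inner_comm, zero_smul, add_zero]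
        exact hperp (z i) (z i).2
      | zero => simp
      | add u u' _ _ h h' => rw [inner_add_left, h, h', add_zero]
      | smul a u _ h => rw [inner_smul_left, h, mul_zero]
    have h4 := (Submodule.orthogonal_disjoint _).le_bot ⟨hmem, h3⟩
    exact hne ((Submodule.mem_bot ℝ).1 h4)
  have hFc : Continuous F := by
    refine continuous_pi fun o => ?_
    cases o with
    | none => exact continuous_const
    | some i =>
      have : (fun t : ℝ => F t (some i)) = fun t => β v (z i) + t • β w (z i) := by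
        funext t
        simp [hF]
      rw [this]
      fun_prop
  have hev : ∀ᶠ t in nhds (0 : ℝ), LinearIndependent ℝ (F t) :=
    hFc.continuousAt.eventually hF0.eventually
  obtain ⟨t, ht, ht0⟩ : ∃ t : ℝ, LinearIndependent ℝ (F t) ∧ t ≠ 0 := by
    have h1 : ∀ᶠ t in nhdsWithin (0 : ℝ) {0}ᶜ, LinearIndependent ℝ (F t) :=
      hev.filter_mono nhdsWithin_le_nhds
    obtain ⟨t, h2, h3⟩ := (h1.and self_mem_nhdsWithin).exists
    exact ⟨t, h2, h3⟩
  have hmem : ∀ o, F t o ∈ LinearMap.range ((β (v + t • w)).domRestrict T) := by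
    intro o
    cases o with
    | none =>
      refine ⟨t⁻¹ • ⟨x, hx⟩, ?_⟩
      simp only [map_smul, LinearMap.domRestrict_apply, map_add, LinearMap.add_apply, hvx,
        LinearMap.smul_apply, zero_add, smul_smul, inv_mul_cancel₀ ht0, one_smul]
      exact hs w x
    | some i => exact ⟨z i, rfl⟩
  have h1 : r + 1 ≤ Module.finrank ℝ (LinearMap.range ((β (v + t • w)).domRestrict T)) := by
    have h2 : LinearIndependent ℝ
        (fun o => (⟨F t o, hmem o⟩ : LinearMap.range ((β (v + t • w)).domRestrict T))) := by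
      apply LinearIndependent.of_comp
        (LinearMap.range ((β (v + t • w)).domRestrict T)).subtype
      exact ht
    have h3 := h2.fintype_card_le_finrank
    simpa using h3
  have h2 := hv (v + t • w)
  omega

/-- the operators of an asymptotic subspace and a regular vector -/
theorem exists_opL {β : V →ₗ[ℝ] V →ₗ[ℝ] W} (hs : ∀ x y, β x y = β y x)
    (hK : ∀ x y, inner ℝ (β x x) (β y y) - ‖β x y‖ ^ 2 ≤ 0) (T : Submodule ℝ V)
    (hT : ∀ x ∈ T, ∀ y ∈ T, β x y = 0) (S : Submodule ℝ W) (hS : ∀ x ∈ T, ∀ v, β x v ∈ S)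
    (hd : Module.finrank ℝ S ≤ Module.finrank ℝ T) (v₁ : V) (hv : ∀ x ∈ T, β v₁ x = 0 → x = 0) :
    ∃ e : T ≃ₗ[ℝ] S, (∀ x : T, (e x : W) = β v₁ x) ∧
      ∀ v, ∃ B : S →ₗ[ℝ] S, B.IsSymmetric ∧ ∀ x : T, (B (e x) : W) = β v x := by
  have hmem : ∀ (v : V) (x : T), (β v).domRestrict T x ∈ S := by
    intro v x
    rw [LinearMap.domRestrict_apply, hs]
    exact hS x x.2 v
  set L : V → (T →ₗ[ℝ] S) := fun v => ((β v).domRestrict T).codRestrict S (hmem v) with hL
  have hinj : Function.Injective (L v₁) := by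
    rw [← LinearMap.ker_eq_bot, LinearMap.ker_eq_bot']
    intro x hx
    have h1 : β v₁ x = 0 := by
      have := congrArg Subtype.val hx
      simpa [hL] using this
    exact Subtype.ext (hv x x.2 h1)
  have hfin : Module.finrank ℝ T = Module.finrank ℝ S :=
    le_antisymm (LinearMap.finrank_le_finrank_of_injective hinj) hd
  have hbij : Function.Bijective (L v₁) :=
    ⟨hinj, (LinearMap.injective_iff_surjective_of_finrank_eq_finrank hfin).1 hinj⟩
  set e : T ≃ₗ[ℝ] S := LinearEquiv.ofBijective (L v₁) hbij with he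
  have hev : ∀ x : T, (e x : W) = β v₁ x := fun x => rfl
  refine ⟨e, hev, fun v => ?_⟩
  have hB : ∀ x : T, (((L v) ∘ₗ e.symm.toLinearMap) (e x) : W) = β v x := by
    intro x
    simp [hL]
  refine ⟨(L v) ∘ₗ e.symm.toLinearMap, symm_of_ineq _ fun p q => ?_, hB⟩
  obtain ⟨x, rfl⟩ := e.surjective p
  obtain ⟨x', rfl⟩ := e.surjective q
  rw [Submodule.coe_inner, Submodule.coe_norm, Submodule.coe_add, hB, hB, hev, hev]
  have h1 := basic hs hK (hT x x.2 x x.2) (hT x' x'.2 x' x'.2) (hT x x.2 x' x'.2) v₁ v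
  rw [hs v₁ x, hs v x', hs v₁ x', hs v x, add_comm]
  exact h1

/-- symmetry for all vectors -/
theorem sym_all {β : V →ₗ[ℝ] V →ₗ[ℝ] W} (hs : ∀ x y, β x y = β y x)
    (hK : ∀ x y, inner ℝ (β x x) (β y y) - ‖β x y‖ ^ 2 ≤ 0) (T : Submodule ℝ V)
    (hT : ∀ x ∈ T, ∀ y ∈ T, β x y = 0) (S : Submodule ℝ W) (hS : ∀ x ∈ T, ∀ v, β x v ∈ S)
    (hd : Module.finrank ℝ S ≤ Module.finrank ℝ T) (v₀ : V) (hv : ∀ x ∈ T, β v₀ x = 0 → x = 0)
    (v v' : V) (x x' : T) :
    inner ℝ (β v x) (β v' x') = inner ℝ (β v' x) (β v x') := by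
  have hsym : ∀ v₁ : V, (∀ x ∈ T, β v₁ x = 0 → x = 0) → ∀ v,
      inner ℝ (β v x) (β v₁ x') = inner ℝ (β v₁ x) (β v x') := by
    intro v₁ hv₁ v
    obtain ⟨e, he, hB⟩ := exists_opL hs hK T hT S hS hd v₁ hv₁
    obtain ⟨B, hB1, hB2⟩ := hB v
    have h1 := hB1 (e x) (e x')
    rw [Submodule.coe_inner, Submodule.coe_inner, hB2, hB2, he, he] at h1
    exact h1
  obtain ⟨e, he, hB⟩ := exists_opL hs hK T hT S hS hd v₀ hv
  obtain ⟨B, hB1, hB2⟩ := hB v'
  set B' : S →L[ℝ] S := LinearMap.toContinuousLinearMap B with hB'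
  set c : ℝ := ‖B'‖ + 1 with hc
  have hreg : ∀ x ∈ T, β (v' + c • v₀) x = 0 → x = 0 := by
    intro z hz h0
    refine hv z hz ?_
    have h1 : β v' z = -(c • β v₀ z) := by
      have : β v' z + c • β v₀ z = 0 := by simpa using h0
      exact eq_neg_of_add_eq_zero_left this
    have h2 : ‖β v' z‖ ≤ ‖B'‖ * ‖β v₀ z‖ := by
      have h3 := B'.le_opNorm (e ⟨z, hz⟩)
      have h4 : ‖B' (e ⟨z, hz⟩)‖ = ‖β v' z‖ := by
        rw [Submodule.coe_norm]
        have : (B' (e ⟨z, hz⟩) : W) = β v' z := hB2 ⟨z, hz⟩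
        rw [this]
      have h5 : ‖e ⟨z, hz⟩‖ = ‖β v₀ z‖ := by
        rw [Submodule.coe_norm, he]
      rwa [h4, h5] at h3
    rw [h1, norm_neg, norm_smul, Real.norm_eq_abs, abs_of_nonneg (by positivity)] at h2
    have h3 : ‖β v₀ z‖ ≤ 0 := by
      rw [hc] at h2
      linarith
    exact norm_le_zero_iff.1 h3
  have h1 := hsym _ hreg v
  have h2 := hsym _ hv v
  simp only [map_add, map_smul, LinearMap.add_apply, LinearMap.smul_apply, inner_add_left,
    inner_add_right, inner_smul_left, inner_smul_right, conj_trivial] at h1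
  rw [h2] at h1
  linarith

/-- **Vectors of rank one.** -/
theorem exists_rk1 {β : V →ₗ[ℝ] V →ₗ[ℝ] W} (hs : ∀ x y, β x y = β y x)
    (hK : ∀ x y, inner ℝ (β x x) (β y y) - ‖β x y‖ ^ 2 ≤ 0) (T : Submodule ℝ V)
    (hT : ∀ x ∈ T, ∀ y ∈ T, β x y = 0) (hTk : ∀ x ∈ T, β x = 0 → x = 0) (hT0 : T ≠ ⊥)
    (S : Submodule ℝ W) (hS : ∀ x ∈ T, ∀ v, β x v ∈ S)
    (hd : Module.finrank ℝ S ≤ Module.finrank ℝ T) :
    ∃ y ∈ T, y ≠ 0 ∧ ∃ p : W, ∀ v, ∃ c : ℝ, β y v = c • p := by
  obtain ⟨v₀, hv₀⟩ := exists_regular hs hK T hT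
  have hv : ∀ x ∈ T, β v₀ x = 0 → x = 0 := fun x hx h => hTk x hx (hv₀ x hx h)
  obtain ⟨e, he, hB⟩ := exists_opL hs hK T hT S hS hd v₀ hv
  choose B hB1 hB2 using hB
  have hcomm : Pairwise (Function.onFun Commute B) := by
    intro v v' _
    change B v * B v' = B v' * B v
    ext1 p
    refine ext_inner_right ℝ fun q => ?_
    obtain ⟨x, rfl⟩ := e.surjective p
    obtain ⟨x', rfl⟩ := e.surjective q
    rw [Module.End.mul_apply, Module.End.mul_apply, hB1 v (B v' (e x)) (e x'),
      hB1 v' (B v (e x)) (e x'), Submodule.coe_inner,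
      Submodule.coe_inner, hB2, hB2, hB2, hB2]
    exact sym_all hs hK T hT S hS hd v₀ hv v' v x x'
  have htop := LinearMap.IsSymmetric.iSup_iInf_eq_top_of_commute hB1 hcomm
  obtain ⟨χ, hχ⟩ : ∃ χ : V → ℝ, (⨅ v, Module.End.eigenspace (B v) (χ v)) ≠ ⊥ := by
    by_contra hcon
    push Not at hcon
    simp only [hcon, iSup_bot] at htop
    apply hT0
    rw [Submodule.eq_bot_iff]
    intro x hx
    have h1 : e ⟨x, hx⟩ ∈ (⊤ : Submodule ℝ S) := Submodule.mem_top
    rw [← htop, Submodule.mem_bot, LinearEquiv.map_eq_zero_iff] at h1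
    exact congrArg Subtype.val h1
  obtain ⟨p, hp, hp0⟩ := (Submodule.ne_bot_iff _).1 hχ
  refine ⟨e.symm p, (e.symm p).2, ?_, (p : W), fun v => ⟨χ v, ?_⟩⟩
  · intro h
    apply hp0
    have h1 : e.symm p = 0 := Subtype.ext h
    exact (LinearEquiv.map_eq_zero_iff _).1 h1
  · have h1 : p ∈ Module.End.eigenspace (B v) (χ v) := (Submodule.mem_iInf _).1 hp v
    rw [Module.End.mem_eigenspace_iff] at h1
    have h2 := hB2 v (e.symm p)
    rw [LinearEquiv.apply_symm_apply, h1] at h2
    rw [hs, ← h2]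
    rfl

end Pool.Agent.Run7.H25.GS
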